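import Pool.Agent.H79.BN.Targets

/-!
Board nsep_modules, row V6: rays between two parallel rays which hit the side `j` hit `j`.
-/

set_option autoImplicit false

namespace Pool.Agent.H54.BN.V6

open MeasureTheory Set Filter Topology Pool.Agent.H93.BL Pool.Agent.H79.BN

theorem conv_pos {c a b : ℝ} (h0 : 0 ≤ c) (h1 : c ≤ 1) (ha : 0 < a) (hb : 0 < b) :
    0 < (1 - c) * a + c * b := by
  rcases eq_or_lt_of_le h0 with h | h
  · rw [← h]
    linarith
  · have h2 := mul_pos h hb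
    have h3 := mul_nonneg (sub_nonneg.2 h1) ha.le
    linarith

section

variable {n : ℕ} [NeZero n]

/-- an inner point of the side `i` is on no other line of a side -/
theorem side_unique (h3 : T_V3) (P : Polygon (Fin n)) (hn : 3 ≤ n) (hC : Cyc P)
    (hP : ConvPos P.p) (i k : Fin n) (x : ℂ) (hx : x ∈ openSegment ℝ (P.p i) (P.q i)) :
    0 ≤ cr (ed P.p k) (x - P.p k) ∧ (cr (ed P.p k) (x - P.p k) = 0 → k = i) := by
  have hne := P.ne i
  rw [hC i] at hx hne
  have hx' : x ∈ segment ℝ (P.p i) (P.p (i + 1)) := openSegment_subset_segment _ _ _ hx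
  obtain ⟨g1, -, -, -, g5⟩ := h3 n P.p hn hP k i x hx'
  refine ⟨g1 k, fun h0 => ?_⟩
  by_contra hki
  rcases g5 (fun h => hki h.symm) h0 with ⟨e1, e2⟩ | ⟨e1, e2⟩
  · have e3 : k = i + 1 := by rw [e2, sub_add_cancel]
    rw [e1, e3] at hx
    exact hne (right_mem_openSegment_iff.1 hx)
  · rw [e1, ← e2] at hx
    exact hne (left_mem_openSegment_iff.1 hx)

end

theorem v6 (_h1 : T_V1) (h3 : T_V3) (h5 : T_V5) : T_V6 := by
  intro n _ P hn hC hP i j s s' φ z z' hss hz hz' hzj hz'j r hr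
  obtain ⟨zj, σ, φ1⟩ := z
  obtain ⟨zj', σ', φ1'⟩ := z'
  simp only at hzj hz'j
  subst hzj
  subst hz'j
  obtain ⟨hph, hph1, t, ht, hpos, -, hdir⟩ := hz
  obtain ⟨hph', hph1', t', ht', hpos', -, -⟩ := hz'
  have hd' : P.dir (i, s', φ) = P.dir (i, s, φ) := rfl
  have hdr : P.dir (i, r, φ) = P.dir (i, s, φ) := rfl
  rw [hd'] at hpos'
  set v := P.dir (i, s, φ) with hv
  -- the parameter
  have hs0 : 0 < s' - s := sub_pos.2 hss
  obtain ⟨c, hc0, hc1, hrc⟩ : ∃ c : ℝ, 0 ≤ c ∧ c ≤ 1 ∧ r = (1 - c) * s + c * s' := by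
    refine ⟨(r - s) / (s' - s), div_nonneg (by linarith [hr.1]) hs0.le, ?_, ?_⟩
    · rw [div_le_one hs0]
      linarith [hr.2]
    · have h := hs0.ne'
      field_simp
      ring
  have hphr : P.Phase (i, r, φ) :=
    ⟨lt_of_lt_of_le hph.1 hr.1, lt_of_le_of_lt hr.2 hph'.2.1, hph.2.2.1, hph.2.2.2⟩
  set T : ℝ := (1 - c) * t + c * t' with hT
  have hT0 : 0 < T := conv_pos hc0 hc1 ht ht'
  set x := P.pos (i, r, φ) with hx
  -- signs of the velocity
  have hvi : 0 < ip v (P.n i) := by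
    rw [hv, P.ip_dir_n (i, s, φ)]
    exact P.cos_pos_of_phase hph
  have hvj : ip v (P.n zj') < 0 := by
    have h6 : 0 < ip (P.dir (zj', σ, φ1)) (P.n zj') := by
      rw [P.ip_dir_n (zj', σ, φ1)]
      exact P.cos_pos_of_phase hph1
    rw [hdir] at h6
    have h7 : ip (P.refl zj' v) (P.n zj') = -ip v (P.n zj') := P.ip_refl_n zj' v
    have h8 : 0 < ip (P.refl zj' v) (P.n zj') := h6
    linarith
  -- the end point
  have hend : x + (T : ℂ) * v ∈ openSegment ℝ (P.p zj') (P.q zj') := by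
    rw [P.mem_openSegment_iff]
    refine ⟨(1 - c) * σ + c * σ', conv_pos hc0 hc1 hph1.1 hph1'.1, ?_, ?_⟩
    · have h6 := conv_pos hc0 hc1 (sub_pos.2 hph1.2.1) (sub_pos.2 hph1'.2.1)
      simp only at h6
      linarith
    · have e1 : P.p zj' + (σ : ℂ) * P.u zj' = P.p i + (s : ℂ) * P.u i + (t : ℂ) * v := hpos
      have e2 : P.p zj' + (σ' : ℂ) * P.u zj' = P.p i + (s' : ℂ) * P.u i + (t' : ℂ) * v := hpos'
      have e3 : x = P.p i + (r : ℂ) * P.u i := rfl
      rw [e3, hrc, hT]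
      push_cast
      linear_combination (-(1 - (c : ℂ))) * e1 - (c : ℂ) * e2
  have hbeg : x ∈ openSegment ℝ (P.p i) (P.q i) := P.pos_mem hphr
  have hhit : P.Hit x v zj' T := by
    refine ⟨hT0, fun ρ hρ => ?_, hend, hvj⟩
    rw [h5 n P hn hC hP]
    intro k
    obtain ⟨a0, a1⟩ := side_unique h3 P hn hC hP i k x hbeg
    obtain ⟨b0, b1⟩ := side_unique h3 P hn hC hP zj' k _ hend
    set A := cr (ed P.p k) (x - P.p k) with hA
    set W := cr (ed P.p k) v with hW
    have e1 : ∀ y : ℝ, cr (ed P.p k) (x + (y : ℂ) * v - P.p k) = A + y * W := by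
      intro y
      rw [show x + (y : ℂ) * v - P.p k = (x - P.p k) + (y : ℂ) * v by ring, cr_add_right,
        cr_smul_right]
    rw [e1] at b0 b1 ⊢
    have hρ0 := hρ.1
    have hρT := hρ.2
    by_contra hcon
    push Not at hcon
    have hT1 : 0 < T - ρ := sub_pos.2 hρT
    have e2 : T * (A + ρ * W) = (T - ρ) * A + ρ * (A + T * W) := by ring
    have e3 : T * (A + ρ * W) ≤ 0 := mul_nonpos_of_nonneg_of_nonpos hT0.le hcon
    have e4 := mul_nonneg hT1.le a0
    have e5 := mul_nonneg hρ0.le b0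
    have hA0 : A = 0 := by
      have : (T - ρ) * A = 0 := by linarith
      exact (mul_eq_zero.1 this).resolve_left hT1.ne'
    have hB0 : A + T * W = 0 := by
      have : ρ * (A + T * W) = 0 := by linarith
      exact (mul_eq_zero.1 this).resolve_left hρ0.ne'
    have hk1 := a1 hA0
    have hk2 := b1 hB0
    rw [← hk1] at hvi
    rw [← hk2] at hvj
    linarith
  have hb4 : ∃ z'', P.Step (i, r, φ) z'' ∧ z''.1 = zj' := by
    obtain ⟨ht0, hin, hmem, hip⟩ := hhit
    obtain ⟨σ2, hσ0, hσ1, hσ⟩ := (P.mem_openSegment_iff zj' _).1 hmem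
    refine ⟨(zj', (1 - c) * σ + c * σ', φ1), ⟨hphr, ?_, T, hT0, ?_, hin, ?_⟩, rfl⟩
    · refine ⟨conv_pos hc0 hc1 hph1.1 hph1'.1, ?_, hph1.2.2.1, hph1.2.2.2⟩
      have h6 := conv_pos hc0 hc1 (sub_pos.2 hph1.2.1) (sub_pos.2 hph1'.2.1)
      simp only at h6 ⊢
      linarith
    · have e1 : P.p zj' + (σ : ℂ) * P.u zj' = P.p i + (s : ℂ) * P.u i + (t : ℂ) * v := hpos
      have e2 : P.p zj' + (σ' : ℂ) * P.u zj' = P.p i + (s' : ℂ) * P.u i + (t' : ℂ) * v := hpos'
      have e3 : x = P.p i + (r : ℂ) * P.u i := rfl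
      have e4 : P.pos (zj', (1 - c) * σ + c * σ', φ1) =
          P.p zj' + (((1 - c) * σ + c * σ' : ℝ) : ℂ) * P.u zj' := rfl
      show P.pos (zj', (1 - c) * σ + c * σ', φ1) = x + (T : ℂ) * v
      rw [e4, e3, hrc, hT]
      push_cast
      linear_combination (1 - (c : ℂ)) * e1 + (c : ℂ) * e2
    · exact hdir
  exact hb4

end Pool.Agent.H54.BN.V6
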